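import Pool.Agent.Lib.MP_c1e222_an.All

/-!
# MP_c1e222_an: growth of the `V`-norm at most `t^(1/2)` up to logarithms

`VSol u ux ut uxx utx` (in `Pool.Agent.Lib.MP_c1e222_an.Iface`): `u` is a solution of
`u_tt - u_xx + u³ = 0` on `(0,1)` with Dirichlet conditions, of class
`C(ℝ; H² ∩ H¹₀) ∩ C¹(ℝ; H¹₀)`, and `ux, ut, uxx, utx` are its derivatives.
`VN` is the square of the norm of `(u, u_t)` in `H² × H¹`.
-/

set_option autoImplicit false

namespace Pool.Agent.Results.MP_c1e222_an.SqrtGrowth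

open Set Pool.Agent.C1E

/-- For every `R` there is `C` such that every solution whose data have `V`-norm at most `R`
satisfies for all `t`: the `V`-norm at time `t` is at most `C (1 + |t|)^(1/2) log(2 + |t|)^4`, and
`|u_x(t,x)|`, `|u_t(t,x)|` are at most `C (1 + |t|)^(1/4) log(2 + |t|)^2` for all `x` in `[0,1]`. -/
theorem result (R : ℝ) : ∃ C : ℝ, ∀ u ux ut uxx utx : ℝ → ℝ → ℝ, VSol u ux ut uxx utx →
    Real.sqrt (VN u ux ut uxx utx 0) ≤ R → ∀ t : ℝ,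
      Real.sqrt (VN u ux ut uxx utx t) ≤
        C * ((1 + |t|) ^ ((1 : ℝ) / 2) * Real.log (2 + |t|) ^ 4) ∧
      ∀ x ∈ Icc (0 : ℝ) 1,
        |ux t x| ≤ C * ((1 + |t|) ^ ((1 : ℝ) / 4) * Real.log (2 + |t|) ^ 2) ∧
        |ut t x| ≤ C * ((1 + |t|) ^ ((1 : ℝ) / 4) * Real.log (2 + |t|) ^ 2) :=
  MPc1e222.main_vsol ext_proof tri R

end Pool.Agent.Results.MP_c1e222_an.SqrtGrowth
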